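import Pool.Agent.Helper71.HV.Sub

set_option autoImplicit false

namespace Pool.Agent.Helper9.HV

open MeasureTheory Filter Pool.Agent.Helper95.PW Pool.Agent.Helper95.LN Pool.Agent.Helper95.CF
open Pool.Agent.Helper95.HV

theorem nr_eq (y : R3) : nr y = ‖(WithLp.toLp 2 y : EuclideanSpace ℝ (Fin 3))‖ := by
  rw [EuclideanSpace.norm_eq]
  simp [nr, Fin.sum_univ_three, sq_abs]

theorem nr_nonneg (y : R3) : 0 ≤ nr y := Real.sqrt_nonneg _

theorem nr_neg (y : R3) : nr (-y) = nr y := by
  unfold nr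
  simp only [Pi.neg_apply, neg_sq]

theorem nr_tri (a b : R3) : nr a ≤ nr (a + b) + nr b := by
  rw [nr_eq, nr_eq, nr_eq]
  have h : (WithLp.toLp 2 a : EuclideanSpace ℝ (Fin 3)) =
      WithLp.toLp 2 (a + b) - WithLp.toLp 2 b := by
    rw [← WithLp.toLp_sub, add_sub_cancel_right]
  rw [h]
  exact norm_sub_le _ _

theorem nr_sq (y : R3) : nr y ^ 2 = y 0 ^ 2 + y 1 ^ 2 + y 2 ^ 2 := by
  unfold nr
  rw [Real.sq_sqrt (by positivity)]

theorem le_nr (y : R3) (i : Fin 3) : |y i| ≤ nr y := by
  unfold nr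
  apply Real.abs_le_sqrt
  fin_cases i
  · change y 0 ^ 2 ≤ _
    nlinarith [sq_nonneg (y 1), sq_nonneg (y 2)]
  · change y 1 ^ 2 ≤ _
    nlinarith [sq_nonneg (y 0), sq_nonneg (y 2)]
  · change y 2 ^ 2 ≤ _
    nlinarith [sq_nonneg (y 0), sq_nonneg (y 1)]

theorem nr_cont : Continuous nr := by
  unfold nr
  fun_prop

theorem sum_le (v ξ : R3) (a : ℝ) (ha : 0 ≤ a) (hv : ∀ i, |v i| ≤ a) :
    |∑ i, v i * ξ i| ≤ 3 * a * nr ξ := by
  calc |∑ i, v i * ξ i| ≤ ∑ i, |v i * ξ i| := Finset.abs_sum_le_sum_abs _ _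
    _ ≤ ∑ _i : Fin 3, a * nr ξ := by
        refine Finset.sum_le_sum fun i _ => ?_
        rw [abs_mul]
        exact mul_le_mul (hv i) (le_nr ξ i) (abs_nonneg _) ha
    _ = 3 * a * nr ξ := by simp; ring

theorem Tq_le (ξ v w : R3) (a b : ℝ) (ha : 0 ≤ a) (hb : 0 ≤ b) (hv : ∀ i, |v i| ≤ a)
    (hw : ∀ i, |w i| ≤ b) (hξ : 0 < nr ξ) : |Tq ξ v w| ≤ 30 * a * b / nr ξ ^ 3 := by
  have h1 := sum_le v ξ a ha hv
  have h2 := sum_le w ξ b hb hw
  have h3 : |∑ m, v m * w m| ≤ 3 * a * b := by
    calc |∑ i, v i * w i| ≤ ∑ i, |v i * w i| := Finset.abs_sum_le_sum_abs _ _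
      _ ≤ ∑ _i : Fin 3, a * b := by
          refine Finset.sum_le_sum fun i _ => ?_
          rw [abs_mul]
          exact mul_le_mul (hv i) (hw i) (abs_nonneg _) ha
      _ = 3 * a * b := by simp; ring
  unfold Tq
  refine (abs_sub _ _).trans ?_
  have h4 : |3 * (∑ m, v m * ξ m) * (∑ m, w m * ξ m) / nr ξ ^ 5| ≤ 27 * a * b / nr ξ ^ 3 := by
    rw [abs_div, abs_mul, abs_mul, abs_of_pos (show (0 : ℝ) < 3 by norm_num),
      abs_of_pos (show 0 < nr ξ ^ 5 by positivity)]
    rw [div_le_div_iff₀ (by positivity) (by positivity)]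
    have h5 : |∑ m, v m * ξ m| * |∑ m, w m * ξ m| ≤ (3 * a * nr ξ) * (3 * b * nr ξ) :=
      mul_le_mul h1 h2 (abs_nonneg _) (by positivity)
    calc 3 * |∑ m, v m * ξ m| * |∑ m, w m * ξ m| * nr ξ ^ 3
        = 3 * (|∑ m, v m * ξ m| * |∑ m, w m * ξ m|) * nr ξ ^ 3 := by ring
      _ ≤ 3 * ((3 * a * nr ξ) * (3 * b * nr ξ)) * nr ξ ^ 3 := by gcongr
      _ = 27 * a * b * nr ξ ^ 5 := by ring
  have h6 : |(∑ m, v m * w m) / nr ξ ^ 3| ≤ 3 * a * b / nr ξ ^ 3 := by
    rw [abs_div, abs_of_pos (show 0 < nr ξ ^ 3 by positivity)]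
    exact div_le_div_of_nonneg_right h3 (by positivity)
  calc _ ≤ 27 * a * b / nr ξ ^ 3 + 3 * a * b / nr ξ ^ 3 := add_le_add h4 h6
    _ = 30 * a * b / nr ξ ^ 3 := by ring

/-- the unit vectors -/
noncomputable def ev (m : Fin 3) : R3 := fun i => if i = m then 1 else 0

theorem ev_le (m i : Fin 3) : |ev m i| ≤ 1 := by
  unfold ev
  split_ifs <;> simp

theorem Tq_sum (ξ : R3) (h : 0 < nr ξ) : ∑ m, Tq ξ (ev m) (ev m) = 0 := by
  have h2 := nr_sq ξ
  simp only [Fin.sum_univ_three, Tq, ev]
  have e : ((1 : Fin 3) = 0) = False := by simp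
  simp
  have h5 : nr ξ ^ 5 = nr ξ ^ 2 * nr ξ ^ 3 := by ring
  rw [h5]
  field_simp
  rw [h2]
  ring

theorem pd_gm {m : Fin 3} {L : ℝ} (hg : ∀ y, nr y ≤ L → gm m L y = y m) (w : R3)
    (hw : nr w < L) (i : Fin 3) : pd i (gm m L) w = if i = m then 1 else 0 := by
  have h : gm m L =ᶠ[nhds w] (fun y => y m) := by
    filter_upwards [(isOpen_lt nr_cont continuous_const).mem_nhds hw] with y hy
    exact hg y (le_of_lt hy)
  unfold pd
  rw [h.fderiv_eq]
  have h2 : fderiv ℝ (fun y : R3 => y m) w = (ContinuousLinearMap.proj m : R3 →L[ℝ] ℝ) :=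
    (ContinuousLinearMap.proj m : R3 →L[ℝ] ℝ).hasFDerivAt.fderiv
  rw [h2]
  simp only [ContinuousLinearMap.proj_apply, Pi.single_apply]
  by_cases h3 : i = m
  · rw [if_pos h3, if_pos h3.symm]
  · rw [if_neg h3, if_neg (Ne.symm h3)]

theorem pd2_gm {m : Fin 3} {L : ℝ} (hg : ∀ y, nr y ≤ L → gm m L y = y m) (w : R3)
    (hw : nr w < L) (i l : Fin 3) : pd l (pd i (gm m L)) w = 0 := by
  have h : pd i (gm m L) =ᶠ[nhds w] (fun _ => if i = m then (1 : ℝ) else 0) := by
    filter_upwards [(isOpen_lt nr_cont continuous_const).mem_nhds hw] with y hy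
    exact pd_gm hg y hy i
  change fderiv ℝ (pd i (gm m L)) w (Pi.single l 1) = 0
  rw [h.fderiv_eq]
  simp

theorem NE (h1 : ST_FLD) (h2 : ST_CUT) : Pool.Agent.Helper71.HV.ST_NE := by
  intro d hd hd1
  obtain ⟨K1, hK1, hF⟩ := h1
  obtain ⟨K2, hK2, hG, -⟩ := h2
  set K : ℝ := max K1 K2 with hKd
  have hK : 1 ≤ K := hK1.trans (le_max_left _ _)
  have hK0 : 0 < K := by linarith
  have hK1K : K1 ≤ K := le_max_left _ _
  have hK2K : K2 ≤ K := le_max_right _ _
  refine ⟨414 * K ^ 2 + 92160 * K / d ^ 3 + 1440 * K, by positivity, ?_⟩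
  intro z L Λ n M X Z y hD hL hΛ hXL hX3 hy
  have hz1 := hD.z1
  have hz : 0 < z := by linarith
  have hZ0 : ∀ j, 0 ≤ Z j := hD.nuc.1
  have hZz : ∀ j, Z j ≤ z := hD.le
  have hpos : ∀ j, 0 < nr (y - X j) := fun j => lt_of_le_of_ne (nr_nonneg _) (Ne.symm (hy j))
  have hL0 : 0 < L := by linarith
  obtain ⟨FS, -, FI, FO, -⟩ : _ ∧ _ ∧ _ ∧ _ ∧ _ := hF M X d (d / 8) (d / 8) 0 hd hD.sep
    (by positivity) le_rfl (by linarith)
  clear FS FI FO
  have FS : ∀ m i w, |pd i (gN X m (d / 8)) w| ≤ K := fun m i w =>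
    ((hF M X d (d / 8) (d / 8) m hd hD.sep (by positivity) le_rfl (by linarith)).1.d1 i w).trans
      hK1K
  have FI : ∀ m j w, nr (w - X j) < d / 8 → ∀ i, pd i (gN X m (d / 8)) w =
      if i = m then 1 else 0 := fun m j w hw i =>
    (hF M X d (d / 8) (d / 8) m hd hD.sep (by positivity) le_rfl (by linarith)).2.2.1 j w hw i
  have FO : ∀ m w, (∀ j, 2 * (d / 8) < nr (w - X j)) → ∀ i, pd i (gN X m (d / 8)) w = 0 :=
    fun m w hw i =>
    (hF M X d (d / 8) (d / 8) m hd hD.sep (by positivity) le_rfl (by linarith)).2.2.2.1 w hw i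
  have hpot : 0 ≤ pot X Z y := Finset.sum_nonneg fun j _ => div_nonneg (hZ0 j) (nr_nonneg _)
  have hRHS : 0 ≤ (414 * K ^ 2 + 92160 * K / d ^ 3 + 1440 * K) / L * pot X Z y := by positivity
  rw [Finset.sum_comm]
  by_cases hyL : nr y < L
  · -- inside
    have g1 : ∀ m, gv (gm m L) y = ev m := by
      intro m
      funext i
      exact pd_gm (hG m L hL0).2.1 y hyL i
    have g2 : ∀ m i, gq (gm m L) y i = 0 := by
      intro m i
      unfold gq
      refine Finset.sum_eq_zero fun l _ => ?_
      rw [pd2_gm (hG m L hL0).2.1 y hyL i l, zero_mul]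
    have g3 : ∀ j, ∑ m, Z j * ((∑ i, gq (gm m L) y i * (y i - X j i)) / nr (y - X j) ^ 3 -
        Tq (y - X j) (gv (gm m L) y) (gv (gm m L) y) +
        2 * Tq (y - X j) (gv (gm m L) y) (gv (gN X m (d / 8)) y)) =
        Z j * (2 * ∑ m, Tq (y - X j) (ev m) (gv (gN X m (d / 8)) y)) := by
      intro j
      rw [← Finset.mul_sum]
      congr 1
      have e := Tq_sum (y - X j) (hpos j)
      have e1 : ∀ m, (∑ i, gq (gm m L) y i * (y i - X j i)) / nr (y - X j) ^ 3 -
        Tq (y - X j) (gv (gm m L) y) (gv (gm m L) y) +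
        2 * Tq (y - X j) (gv (gm m L) y) (gv (gN X m (d / 8)) y) =
        2 * Tq (y - X j) (ev m) (gv (gN X m (d / 8)) y) - Tq (y - X j) (ev m) (ev m) := by
        intro m
        have e2 : ∑ i, gq (gm m L) y i * (y i - X j i) = 0 :=
          Finset.sum_eq_zero fun i _ => by rw [g2, zero_mul]
        rw [e2, g1]
        ring
      rw [Finset.sum_congr rfl fun m _ => e1 m, Finset.sum_sub_distrib, e, sub_zero,
        Finset.mul_sum]
    rw [Finset.sum_congr rfl fun j _ => g3 j]
    by_cases hn : ∃ i, nr (y - X i) ≤ d / 4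
    · obtain ⟨i, hi⟩ := hn
      have hS : ∀ j, |∑ m, Tq (y - X j) (ev m) (gv (gN X m (d / 8)) y)| ≤
          90 * K / nr (y - X j) ^ 3 := by
        intro j
        calc _ ≤ ∑ m, |Tq (y - X j) (ev m) (gv (gN X m (d / 8)) y)| :=
              Finset.abs_sum_le_sum_abs _ _
          _ ≤ ∑ _m : Fin 3, 30 * 1 * K / nr (y - X j) ^ 3 :=
              Finset.sum_le_sum fun m _ => Tq_le _ _ _ 1 K zero_le_one hK0.le (ev_le m)
                (fun i => FS m i y) (hpos j)
          _ = 90 * K / nr (y - X j) ^ 3 := by simp; ring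
      have key : ∀ j, Z j * (2 * ∑ m, Tq (y - X j) (ev m) (gv (gN X m (d / 8)) y)) ≤
          (if j = i then 92160 * K / d ^ 3 * z else 0) +
            1440 * K * z * (if j = i then 0 else 1 / nr (X i - X j) ^ 3) := by
        intro j
        by_cases hji : j = i
        · subst hji
          rw [if_pos rfl, if_pos rfl, mul_zero, add_zero]
          by_cases h8 : nr (y - X j) < d / 8
          · have e : ∀ m, gv (gN X m (d / 8)) y = ev m := by
              intro m
              funext i
              exact FI m j y h8 i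
            rw [Finset.sum_congr rfl fun m _ => by rw [e m], Tq_sum _ (hpos j)]
            simp only [mul_zero]
            positivity
          · have h8' := not_lt.1 h8
            have h9 := (le_abs_self _).trans (hS j)
            have h10 : 90 * K / nr (y - X j) ^ 3 ≤ 90 * K / (d / 8) ^ 3 := by gcongr
            have h11 : 90 * K / (d / 8) ^ 3 = 46080 * K / d ^ 3 := by field_simp; norm_num
            have h12 : 2 * ∑ m, Tq (y - X j) (ev m) (gv (gN X m (d / 8)) y) ≤
                92160 * K / d ^ 3 := by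
              have : 92160 * K / d ^ 3 = 2 * (46080 * K / d ^ 3) := by ring
              rw [this]
              linarith
            calc Z j * (2 * ∑ m, Tq (y - X j) (ev m) (gv (gN X m (d / 8)) y))
                ≤ Z j * (92160 * K / d ^ 3) := mul_le_mul_of_nonneg_left h12 (hZ0 j)
              _ ≤ z * (92160 * K / d ^ 3) := mul_le_mul_of_nonneg_right (hZz j) (by positivity)
              _ = _ := by ring
        · rw [if_neg hji, if_neg hji, zero_add]
          have hij : i ≠ j := Ne.symm hji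
          have s1 := hD.sep i j hij
          have s2 := nr_tri (X i - X j) (y - X i)
          have s3 : X i - X j + (y - X i) = y - X j := by abel
          rw [s3] at s2
          have s4 : nr (X i - X j) / 2 ≤ nr (y - X j) := by linarith
          have s5 : 0 < nr (X i - X j) := by linarith
          have h9 := (le_abs_self _).trans (hS j)
          have h10 : 90 * K / nr (y - X j) ^ 3 ≤ 90 * K / (nr (X i - X j) / 2) ^ 3 := by gcongr
          have h11 : 90 * K / (nr (X i - X j) / 2) ^ 3 = 720 * K * (1 / nr (X i - X j) ^ 3) := by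
            field_simp; norm_num
          have h12 : 2 * ∑ m, Tq (y - X j) (ev m) (gv (gN X m (d / 8)) y) ≤
              1440 * K * (1 / nr (X i - X j) ^ 3) := by linarith
          calc Z j * (2 * ∑ m, Tq (y - X j) (ev m) (gv (gN X m (d / 8)) y))
              ≤ Z j * (1440 * K * (1 / nr (X i - X j) ^ 3)) :=
                mul_le_mul_of_nonneg_left h12 (hZ0 j)
            _ ≤ z * (1440 * K * (1 / nr (X i - X j) ^ 3)) :=
                mul_le_mul_of_nonneg_right (hZz j) (by positivity)
            _ = _ := by ring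
      have hsum := Finset.sum_le_sum fun j (_ : j ∈ Finset.univ) => key j
      rw [Finset.sum_add_distrib, ← Finset.mul_sum] at hsum
      simp only [Finset.sum_ite_eq', Finset.mem_univ, if_true] at hsum
      have h20 := mul_le_mul_of_nonneg_left (hX3 i)
        (show 0 ≤ 1440 * K * z by positivity)
      have h21 : 92160 * K / d ^ 3 * z + 1440 * K * z * Λ ≤
          (414 * K ^ 2 + 92160 * K / d ^ 3 + 1440 * K) * (z * (1 + Λ)) := by
        have e : (414 * K ^ 2 + 92160 * K / d ^ 3 + 1440 * K) * (z * (1 + Λ)) =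
          92160 * K / d ^ 3 * z + 1440 * K * z * Λ + (414 * K ^ 2 * (z * (1 + Λ)) +
            92160 * K / d ^ 3 * (z * Λ) + 1440 * K * z) := by ring
        rw [e]
        have : 0 ≤ 414 * K ^ 2 * (z * (1 + Λ)) +
            92160 * K / d ^ 3 * (z * Λ) + 1440 * K * z := by positivity
        linarith
      linarith
    · push Not at hn
      have e : ∀ m, gv (gN X m (d / 8)) y = 0 := by
        intro m
        funext i
        exact FO m y (fun j => by linarith [hn j]) i
      have e2 : ∀ j, Z j * (2 * ∑ m, Tq (y - X j) (ev m) (gv (gN X m (d / 8)) y)) = 0 := by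
        intro j
        have : ∑ m, Tq (y - X j) (ev m) (gv (gN X m (d / 8)) y) = 0 := by
          refine Finset.sum_eq_zero fun m _ => ?_
          rw [e m]
          simp [Tq]
        rw [this]; ring
      rw [Finset.sum_congr rfl fun j _ => e2 j, Finset.sum_const_zero]
      positivity
  · -- outside
    have hyL' := not_lt.1 hyL
    have hfar : ∀ j, L / 2 + 2 ≤ nr (y - X j) := by
      intro j
      have s1 := hXL j
      have s2 := nr_tri y (-X j)
      rw [nr_neg, ← sub_eq_add_neg] at s2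
      linarith
    have e : ∀ m, gv (gN X m (d / 8)) y = 0 := by
      intro m
      funext i
      exact FO m y (fun j => by linarith [hfar j]) i
    have key : ∀ j m, Z j * ((∑ i, gq (gm m L) y i * (y i - X j i)) / nr (y - X j) ^ 3 -
        Tq (y - X j) (gv (gm m L) y) (gv (gm m L) y) +
        2 * Tq (y - X j) (gv (gm m L) y) (gv (gN X m (d / 8)) y)) ≤
        138 * K ^ 2 / L * (Z j / nr (y - X j)) := by
      intro j m
      have hsc := (hG m L hL0).1
      have hd1 : ∀ i, |gv (gm m L) y i| ≤ K := fun i => (hsc.d1 i y).trans hK2K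
      have hq : ∀ i, |gq (gm m L) y i| ≤ 3 * K ^ 2 / L := by
        intro i
        unfold gq
        calc |∑ l, pd l (pd i (gm m L)) y * pd l (gm m L) y|
            ≤ ∑ l, |pd l (pd i (gm m L)) y * pd l (gm m L) y| := Finset.abs_sum_le_sum_abs _ _
          _ ≤ ∑ _l : Fin 3, K / L * K := by
              refine Finset.sum_le_sum fun l _ => ?_
              rw [abs_mul]
              refine mul_le_mul ((hsc.d2 l i y).trans ?_) (hd1 l) (abs_nonneg _) (by positivity)
              gcongr
          _ = 3 * K ^ 2 / L := by simp; ring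
      have hξ := hpos j
      have hinv : 1 / nr (y - X j) ≤ 2 / L := by
        rw [div_le_div_iff₀ hξ hL0]
        linarith [hfar j]
      have hinv2 : 1 / nr (y - X j) ≤ 2 := by
        refine hinv.trans ?_
        rw [div_le_iff₀ hL0]
        linarith
      have hi0 : 0 < 1 / nr (y - X j) := by positivity
      have f1 : (∑ i, gq (gm m L) y i * (y i - X j i)) / nr (y - X j) ^ 3 ≤
          18 * K ^ 2 / L * (1 / nr (y - X j)) := by
        have g1 := (le_abs_self _).trans
          (sum_le (gq (gm m L) y) (y - X j) (3 * K ^ 2 / L) (by positivity) hq)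
        have g2 : (∑ i, gq (gm m L) y i * (y i - X j i)) / nr (y - X j) ^ 3 ≤
            3 * (3 * K ^ 2 / L) * nr (y - X j) / nr (y - X j) ^ 3 :=
          div_le_div_of_nonneg_right g1 (by positivity)
        refine g2.trans ?_
        have g3 : 3 * (3 * K ^ 2 / L) * nr (y - X j) / nr (y - X j) ^ 3 =
            9 * K ^ 2 / L * (1 / nr (y - X j)) * (1 / nr (y - X j)) := by
          field_simp
          norm_num
        rw [g3]
        have g4 : 9 * K ^ 2 / L * (1 / nr (y - X j)) * (1 / nr (y - X j)) ≤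
            9 * K ^ 2 / L * (1 / nr (y - X j)) * 2 :=
          mul_le_mul_of_nonneg_left hinv2 (by positivity)
        refine g4.trans (le_of_eq ?_)
        ring
      have f2 : -Tq (y - X j) (gv (gm m L) y) (gv (gm m L) y) ≤
          120 * K ^ 2 / L * (1 / nr (y - X j)) := by
        have g1 := (neg_le_abs _).trans
          (Tq_le (y - X j) (gv (gm m L) y) (gv (gm m L) y) K K hK0.le hK0.le hd1 hd1 hξ)
        refine g1.trans ?_
        have g3 : 30 * K * K / nr (y - X j) ^ 3 =
            30 * K ^ 2 * (1 / nr (y - X j)) * ((1 / nr (y - X j)) * (1 / nr (y - X j))) := by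
          field_simp
        rw [g3]
        have g4 : (1 / nr (y - X j)) * (1 / nr (y - X j)) ≤ 2 / L * 2 :=
          mul_le_mul hinv hinv2 hi0.le (by positivity)
        have g5 : 30 * K ^ 2 * (1 / nr (y - X j)) * ((1 / nr (y - X j)) * (1 / nr (y - X j))) ≤
            30 * K ^ 2 * (1 / nr (y - X j)) * (2 / L * 2) :=
          mul_le_mul_of_nonneg_left g4 (by positivity)
        refine g5.trans (le_of_eq ?_)
        ring
      have f3 : Tq (y - X j) (gv (gm m L) y) (gv (gN X m (d / 8)) y) = 0 := by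
        rw [e m]
        simp [Tq]
      rw [f3, mul_zero, add_zero]
      have f4 : (∑ i, gq (gm m L) y i * (y i - X j i)) / nr (y - X j) ^ 3 -
          Tq (y - X j) (gv (gm m L) y) (gv (gm m L) y) ≤
          138 * K ^ 2 / L * (1 / nr (y - X j)) := by
        have : 138 * K ^ 2 / L * (1 / nr (y - X j)) = 18 * K ^ 2 / L * (1 / nr (y - X j)) +
          120 * K ^ 2 / L * (1 / nr (y - X j)) := by ring
        rw [this]
        linarith
      calc _ ≤ Z j * (138 * K ^ 2 / L * (1 / nr (y - X j))) :=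
            mul_le_mul_of_nonneg_left f4 (hZ0 j)
        _ = _ := by ring
    calc _ ≤ ∑ j, ∑ _m : Fin 3, 138 * K ^ 2 / L * (Z j / nr (y - X j)) :=
          Finset.sum_le_sum fun j _ => Finset.sum_le_sum fun m _ => key j m
      _ = 414 * K ^ 2 / L * pot X Z y := by
          unfold pot
          rw [Finset.mul_sum]
          refine Finset.sum_congr rfl fun j _ => ?_
          simp
          ring
      _ ≤ (414 * K ^ 2 + 92160 * K / d ^ 3 + 1440 * K) / L * pot X Z y := by
          apply mul_le_mul_of_nonneg_right _ hpot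
          apply div_le_div_of_nonneg_right _ hL0.le
          have : 0 ≤ 92160 * K / d ^ 3 + 1440 * K := by positivity
          linarith
      _ ≤ _ := by
          have : 0 ≤ (414 * K ^ 2 + 92160 * K / d ^ 3 + 1440 * K) * (z * (1 + Λ)) := by
            positivity
          linarith

end Pool.Agent.Helper9.HV
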